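import Mathlib

set_option autoImplicit false

/-!
# Block diagonal embedding for permanents and weighted determinants
-/

namespace Pool.Agent.Helper9P

open Matrix Equiv Finset

section perm
variable {R : Type*} [CommRing R] {m n : Type*} [Fintype m] [Fintype n] [DecidableEq m]
  [DecidableEq n]

theorem permanent_submatrix_equiv (e : m ≃ n) (A : Matrix n n R) :
    (A.submatrix e e).permanent = A.permanent := by
  unfold Matrix.permanent
  rw [← Equiv.sum_comp (Equiv.permCongr e)]
  refine Finset.sum_congr rfl fun σ _ => ?_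
  rw [← Equiv.prod_comp e]
  refine Finset.prod_congr rfl fun i _ => ?_
  simp [Equiv.permCongr_apply]

set_option backward.isDefEq.respectTransparency false in
theorem permanent_fromBlocks_zero (A : Matrix m m R) (D : Matrix n n R) :
    (Matrix.fromBlocks A 0 0 D).permanent = A.permanent * D.permanent := by
  classical
    unfold Matrix.permanent
    convert!
      Eq.symm <|
        sum_subset (M := R) (subset_univ
          ((Perm.sumCongrHom m n).range : Set (Perm (m ⊕ n))).toFinset) ?_
    · simp_rw [sum_mul_sum, ← sum_product', univ_product_univ]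
      refine sum_nbij (fun σ ↦ σ.fst.sumCongr σ.snd) ?_ ?_ ?_ ?_
      · intro σ₁₂ _
        simp
      · intro σ₁ _ σ₂ _
        dsimp only
        intro h
        have h2 : ∀ x, Perm.sumCongr σ₁.fst σ₁.snd x = Perm.sumCongr σ₂.fst σ₂.snd x :=
          DFunLike.congr_fun h
        simp only [Sum.map_inr, Sum.map_inl, Perm.sumCongr_apply, Sum.forall, Sum.inl.injEq,
          Sum.inr.injEq] at h2
        ext x
        · exact h2.left x
        · exact h2.right x
      · intro σ hσ
        rw [mem_coe, Set.mem_toFinset] at hσ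
        obtain ⟨σ₁₂, hσ₁₂⟩ := hσ
        use σ₁₂
        rw [← hσ₁₂]
        simp
      · simp only [forall_prop_of_true, Prod.forall, mem_univ]
        intro σ₁ σ₂
        rw [Fintype.prod_sum_type]
        simp_rw [Equiv.sumCongr_apply, Sum.map_inr, Sum.map_inl, fromBlocks_apply₁₁,
          fromBlocks_apply₂₂]
    · rintro σ - hσn
      have h1 : ¬∀ x, ∃ y, Sum.inl y = σ (Sum.inl x) := by
        rw [Set.mem_toFinset] at hσn
        simpa only [Set.MapsTo, Set.mem_range, forall_exists_index, forall_apply_eq_imp_iff] using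
          mt Perm.mem_sumCongrHom_range_of_perm_mapsTo_inl hσn
      obtain ⟨a, ha⟩ := not_forall.mp h1
      rcases hx : σ (Sum.inl a) with a2 | b
      · have hn := (not_exists.mp ha) a2
        exact absurd hx.symm hn
      · rw [Finset.prod_eq_zero (Finset.mem_univ (Sum.inl a))]
        rw [hx, fromBlocks_apply₂₁, Matrix.zero_apply]

end perm

variable {K : Type*} [Field K]

/-- The entries of a matrix are `0` or `1`. -/
def Is01 {n : Type*} (A : Matrix n n K) : Prop := ∀ a b, A a b = 0 ∨ A a b = 1

theorem embed_fin (N : ℕ) : ∀ (sz : Fin N → ℕ) (n : ℕ), ∑ p, sz p ≤ n →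
    ∃ E : (∀ p, Matrix (Fin (sz p)) (Fin (sz p)) K) → Matrix (Fin n) (Fin n) K,
      (∀ A, (∀ p, Is01 (A p)) → Is01 (E A)) ∧
      (∀ A, (E A).permanent = ∏ p, (A p).permanent) ∧
      ∀ W : Matrix (Fin n) (Fin n) K,
        ∃ (w : K) (V : ∀ p, Matrix (Fin (sz p)) (Fin (sz p)) K),
          ∀ A, (W ⊙ E A).det = w * ∏ p, (V p ⊙ A p).det := by
  induction N with
  | zero =>
    intro sz n _
    refine ⟨fun _ => 1, ?_, ?_, ?_⟩
    · intro A _ a b
      by_cases h : a = b
      · right; subst h; exact Matrix.one_apply_eq a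
      · left; exact Matrix.one_apply_ne h
    · intro A; simp
    · intro W
      refine ⟨∏ i, W i i, fun p => 0, fun A => ?_⟩
      have : W ⊙ (1 : Matrix (Fin n) (Fin n) K) = Matrix.diagonal fun i => W i i := by
        ext a b
        by_cases h : a = b
        · subst h; simp
        · simp [h]
      rw [this]
      simp
  | succ N ih =>
    intro sz n hn
    rw [Fin.sum_univ_succ] at hn
    obtain ⟨n', rfl⟩ : ∃ n', n = sz 0 + n' := ⟨n - sz 0, by omega⟩
    obtain ⟨E, hE01, hEper, hEdet⟩ := ih (fun p => sz p.succ) n' (by omega)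
    refine ⟨fun A => (Matrix.fromBlocks (A 0) 0 0 (E fun p => A p.succ)).submatrix
      finSumFinEquiv.symm finSumFinEquiv.symm, ?_, ?_, ?_⟩
    · intro A hA a b
      have h' := hE01 (fun p => A p.succ) (fun p => hA p.succ)
      change (Matrix.fromBlocks (A 0) 0 0 (E fun p => A p.succ))
        (finSumFinEquiv.symm a) (finSumFinEquiv.symm b) = 0 ∨
        (Matrix.fromBlocks (A 0) 0 0 (E fun p => A p.succ))
        (finSumFinEquiv.symm a) (finSumFinEquiv.symm b) = 1
      rcases finSumFinEquiv.symm a with a | a <;> rcases finSumFinEquiv.symm b with b | b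
      · simpa using hA 0 a b
      · left; simp
      · left; simp
      · simpa using h' a b
    · intro A
      rw [permanent_submatrix_equiv, permanent_fromBlocks_zero, hEper, Fin.prod_univ_succ]
    · intro W
      set W' := W.submatrix finSumFinEquiv finSumFinEquiv with hW'
      obtain ⟨w, V, hV⟩ := hEdet W'.toBlocks₂₂
      refine ⟨w, Fin.cons W'.toBlocks₁₁ V, fun A => ?_⟩
      have h1 : W ⊙ ((Matrix.fromBlocks (A 0) 0 0 (E fun p => A p.succ)).submatrix
          finSumFinEquiv.symm finSumFinEquiv.symm) =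
          (Matrix.fromBlocks (W'.toBlocks₁₁ ⊙ A 0) 0 0
            (W'.toBlocks₂₂ ⊙ E fun p => A p.succ)).submatrix
          finSumFinEquiv.symm finSumFinEquiv.symm := by
        ext a b
        obtain ⟨a, rfl⟩ := finSumFinEquiv.surjective a
        obtain ⟨b, rfl⟩ := finSumFinEquiv.surjective b
        rcases a with a | a <;> rcases b with b | b <;>
          simp [Matrix.hadamard_apply, hW', Matrix.toBlocks₁₁, Matrix.toBlocks₂₂]
      rw [h1, Matrix.det_submatrix_equiv_self, Matrix.det_fromBlocks_zero₂₁, hV,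
        Fin.prod_univ_succ]
      simp only [Fin.cons_zero, Fin.cons_succ]
      ring

theorem embed {P : Type*} [Fintype P] (sz : P → ℕ) (n : ℕ) (hn : ∑ p, sz p ≤ n) :
    ∃ E : (∀ p, Matrix (Fin (sz p)) (Fin (sz p)) K) → Matrix (Fin n) (Fin n) K,
      (∀ A, (∀ p, Is01 (A p)) → Is01 (E A)) ∧
      (∀ A, (E A).permanent = ∏ p, (A p).permanent) ∧
      ∀ W : Matrix (Fin n) (Fin n) K,
        ∃ (w : K) (V : ∀ p, Matrix (Fin (sz p)) (Fin (sz p)) K),
          ∀ A, (W ⊙ E A).det = w * ∏ p, (V p ⊙ A p).det := by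
  classical
  let e := Fintype.equivFin P
  obtain ⟨E, h1, h2, h3⟩ := embed_fin (K := K) (Fintype.card P) (fun q => sz (e.symm q)) n (by
    rw [Equiv.sum_comp e.symm sz]; exact hn)
  let F := Equiv.piCongrLeft' (fun p => Matrix (Fin (sz p)) (Fin (sz p)) K) e
  refine ⟨fun A => E (F A), ?_, ?_, ?_⟩
  · intro A hA
    exact h1 _ fun q => hA _
  · intro A
    rw [h2, ← Equiv.prod_comp e.symm]
    rfl
  · intro W
    obtain ⟨w, V, hV⟩ := h3 W
    refine ⟨w, F.symm V, fun A => ?_⟩
    have hFV : ∀ q, F.symm V (e.symm q) = V q := fun q =>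
      congrFun (F.apply_symm_apply V) q
    rw [hV, ← Equiv.prod_comp e.symm]
    congr 1
    refine Finset.prod_congr rfl fun q _ => ?_
    rw [hFV]
    rfl

end Pool.Agent.Helper9P
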