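import Pool.Agent.Helper9P.Blocks

set_option autoImplicit false

/-!
# Gadgets: small blocks on which products of `d` weighted determinants have small rank
-/

namespace Pool.Agent.Helper9P

open Matrix Finset Equiv

variable {K : Type*} [Field K]

/-- A gadget of size `size` against products of `d` weighted determinants, for all `d` with
`q d`: a linear map from functions of a `0`-`1` matrix of size `size` to `N × N` matrices which
sends the permanent to an invertible matrix and products of `d` weighted determinants to matrices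
of rank at most `a / b * N`. -/
structure Gadget (K : Type*) [Field K] (q : ℕ → Prop) (a b size N : ℕ) where
  cfg : Fin N → Fin N → Fin 3 → Matrix (Fin size) (Fin size) K
  coef : Fin N → Fin N → Fin 3 → K
  is01 : ∀ i j c, Is01 (cfg i j c)
  unit : IsUnit (Matrix.of fun i j => ∑ c, coef i j c * (cfg i j c).permanent)
  rank_le : ∀ d, q d → ∀ W : Fin d → Matrix (Fin size) (Fin size) K,
    b * (Matrix.of fun i j => ∑ c, coef i j c * ∏ l, (W l ⊙ cfg i j c).det).rank ≤ a * N

/-! ### Gadgets from closed families of permutations -/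

/-- A family of permutations of which any two are distinct and are the only permutations contained
in their union. -/
def Closed {β : Type*} {N : ℕ} (ρ : Fin N → Perm β) : Prop :=
  ∀ x y, x ≠ y → ρ x ≠ ρ y ∧
    ∀ π : Perm β, (∀ b, π b = ρ x b ∨ π b = ρ y b) → π = ρ x ∨ π = ρ y

section closed

variable {β : Type*} [Fintype β] [DecidableEq β]

/-- The union of the permutation matrices of `σ` and `τ`. -/
def union (σ τ : Perm β) : Matrix β β K :=
  Matrix.of fun a b => if a = σ b ∨ a = τ b then 1 else 0

theorem union_sum_self (g : Perm β → K) (σ : Perm β) :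
    ∑ π : Perm β, g π * ∏ b, (union σ σ : Matrix β β K) (π b) b = g σ := by
  rw [Finset.sum_eq_single σ]
  · have : ∏ b, (union σ σ : Matrix β β K) (σ b) b = 1 :=
      Finset.prod_eq_one fun b _ => by simp [union]
    rw [this, mul_one]
  · intro π _ hπ
    have : ∃ b, π b ≠ σ b := by
      by_contra hcon
      push Not at hcon
      exact hπ (Equiv.ext hcon)
    obtain ⟨b, hb⟩ := this
    rw [Finset.prod_eq_zero (Finset.mem_univ b), mul_zero]
    simp [union, hb]
  · intro h; exact absurd (Finset.mem_univ _) h

theorem union_sum_ne (g : Perm β → K) {σ τ : Perm β} (hne : σ ≠ τ)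
    (hcl : ∀ π : Perm β, (∀ b, π b = σ b ∨ π b = τ b) → π = σ ∨ π = τ) :
    ∑ π : Perm β, g π * ∏ b, (union σ τ : Matrix β β K) (π b) b = g σ + g τ := by
  rw [← Finset.sum_pair hne]
  symm
  have hsub : ({σ, τ} : Finset (Perm β)) ⊆ Finset.univ := Finset.subset_univ _
  rw [← Finset.sum_subset hsub]
  · refine Finset.sum_congr rfl fun π hπ => ?_
    have : ∏ b, (union σ τ : Matrix β β K) (π b) b = 1 := by
      refine Finset.prod_eq_one fun b _ => ?_
      rw [Finset.mem_insert, Finset.mem_singleton] at hπ
      rcases hπ with rfl | rfl <;> simp [union]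
    rw [this, mul_one]
  · intro π _ hπ
    have : ∃ b, ¬ (π b = σ b ∨ π b = τ b) := by
      by_contra hcon
      push Not at hcon
      apply hπ
      rw [Finset.mem_insert, Finset.mem_singleton]
      exact hcl π hcon
    obtain ⟨b, hb⟩ := this
    rw [Finset.prod_eq_zero (Finset.mem_univ b), mul_zero]
    simp only [union, Matrix.of_apply, if_neg hb]

/-- The weight of a permutation. -/
noncomputable def wt (W : Matrix β β K) (σ : Perm β) : K :=
  ((Perm.sign σ : ℤ) : K) * ∏ b, W (σ b) b

theorem det_union_self (W : Matrix β β K) (σ : Perm β) :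
    (W ⊙ union σ σ).det = wt W σ := by
  rw [Matrix.det_apply']
  have := union_sum_self (fun π : Perm β => ((Perm.sign π : ℤ) : K) * ∏ b, W (π b) b) σ
  rw [← wt] at this
  rw [← this]
  refine Finset.sum_congr rfl fun π _ => ?_
  simp only [Matrix.hadamard_apply, Finset.prod_mul_distrib, mul_assoc]

theorem det_union_ne (W : Matrix β β K) {σ τ : Perm β} (hne : σ ≠ τ)
    (hcl : ∀ π : Perm β, (∀ b, π b = σ b ∨ π b = τ b) → π = σ ∨ π = τ) :
    (W ⊙ union σ τ).det = wt W σ + wt W τ := by
  rw [Matrix.det_apply']
  have := union_sum_ne (fun π : Perm β => ((Perm.sign π : ℤ) : K) * ∏ b, W (π b) b) hne hcl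
  rw [← wt, ← wt] at this
  rw [← this]
  refine Finset.sum_congr rfl fun π _ => ?_
  simp only [Matrix.hadamard_apply, Finset.prod_mul_distrib, mul_assoc]

theorem per_union_self (σ : Perm β) : (union σ σ : Matrix β β K).permanent = 1 := by
  have := union_sum_self (K := K) (fun _ : Perm β => 1) σ
  simpa [Matrix.permanent] using this

theorem per_union_ne {σ τ : Perm β} (hne : σ ≠ τ)
    (hcl : ∀ π : Perm β, (∀ b, π b = σ b ∨ π b = τ b) → π = σ ∨ π = τ) :
    (union σ τ : Matrix β β K).permanent = 2 := by
  have := union_sum_ne (K := K) (fun _ : Perm β => 1) hne hcl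
  simp only [one_mul] at this
  rw [Matrix.permanent, this]
  norm_num

omit [Fintype β] in
theorem is01_union (σ τ : Perm β) : Is01 (union σ τ : Matrix β β K) := by
  intro a b
  simp only [union, Matrix.of_apply]
  split_ifs
  · exact Or.inr rfl
  · exact Or.inl rfl

end closed

theorem rank_sum_le' {I J : Type*} [Fintype I] [Fintype J] {s : Type*} (S : Finset s)
    (u : s → I → K) (v : s → J → K) :
    (∑ k ∈ S, Matrix.vecMulVec (u k) (v k)).rank ≤ S.card := by
  classical
  have key : (∑ k ∈ S, Matrix.vecMulVec (u k) (v k)) =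
      (Matrix.of fun (i : I) (k : S) => u k i) * (Matrix.of fun (k : S) (j : J) => v k j) := by
    ext i j
    rw [Matrix.sum_apply, Matrix.mul_apply]
    simp only [Matrix.vecMulVec_apply, Matrix.of_apply]
    rw [← Finset.sum_coe_sort S fun k => u k i * v k j]
  rw [key]
  refine (Matrix.rank_mul_le_left _ _).trans ((Matrix.rank_le_card_width _).trans ?_)
  simp

/-- The gadget of a closed family against products of exactly `d` weighted determinants. -/
noncomputable def closedGadget (d : ℕ) (hd : 1 ≤ d) (hK : (2 : K) ^ d ≠ 2) {a b size N : ℕ}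
    (ρ : Fin N → Perm (Fin size)) (hρ : Closed ρ) (hN : b * (2 ^ d - 2) ≤ a * N) :
    Gadget K (fun e => e = d) a b size N where
  cfg i j := ![union (ρ i) (ρ j), union (ρ i) (ρ i), union (ρ j) (ρ j)]
  coef i j := if i = j then ![2 ^ d - 2, 0, 0] else ![1, -1, -1]
  is01 i j c := by
    fin_cases c
    · exact is01_union _ _
    · exact is01_union _ _
    · exact is01_union _ _
  unit := by
    have : (Matrix.of fun i j : Fin N => ∑ c,
        (if i = j then ![2 ^ d - 2, 0, 0] else ![1, -1, -1] : Fin 3 → K) c *
        ((![union (ρ i) (ρ j), union (ρ i) (ρ i), union (ρ j) (ρ j)] :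
          Fin 3 → Matrix (Fin size) (Fin size) K) c).permanent) =
        ((2 : K) ^ d - 2) • (1 : Matrix (Fin N) (Fin N) K) := by
      ext i j
      simp only [Matrix.of_apply, Fin.sum_univ_three, Matrix.smul_apply, smul_eq_mul]
      by_cases hij : i = j
      · subst hij
        simp [per_union_self]
      · obtain ⟨h1, h2⟩ := hρ i j hij
        simp only [if_neg hij, Matrix.one_apply_ne hij]
        simp [per_union_self, per_union_ne h1 h2]
        norm_num
    rw [this]
    have h2 : (2 : K) ^ d - 2 ≠ 0 := sub_ne_zero.mpr hK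
    have h3 := (isUnit_iff_ne_zero.mpr h2).map (algebraMap K (Matrix (Fin N) (Fin N) K))
    rwa [Algebra.algebraMap_eq_smul_one] at h3
  rank_le := by
    intro e he W
    have he' : d = e := he.symm
    subst he'
    refine le_trans ?_ hN
    refine Nat.mul_le_mul_left b ?_
    let S : Finset (Finset (Fin d)) := (Finset.univ.erase ∅).erase Finset.univ
    have hne : (Finset.univ : Finset (Fin d)) ≠ ∅ := by
      rw [← Finset.nonempty_iff_ne_empty]
      exact ⟨⟨0, by omega⟩, Finset.mem_univ _⟩
    have hS : S.card = 2 ^ d - 2 := by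
      rw [Finset.card_erase_of_mem (Finset.mem_erase.mpr ⟨hne, Finset.mem_univ _⟩),
        Finset.card_erase_of_mem (Finset.mem_univ _)]
      simp
      omega
    rw [← hS]
    convert rank_sum_le' S (fun (L : Finset (Fin d)) (i : Fin N) => ∏ l ∈ L, wt (W l) (ρ i))
      (fun (L : Finset (Fin d)) (j : Fin N) => ∏ l ∈ Finset.univ \ L, wt (W l) (ρ j)) using 2
    ext i j
    have hadd := Finset.prod_add (fun l => wt (W l) (ρ i)) (fun l => wt (W l) (ρ j))
      (Finset.univ : Finset (Fin d))
    rw [Finset.powerset_univ,
      ← Finset.add_sum_erase _ _ (Finset.mem_univ (∅ : Finset (Fin d))),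
      ← Finset.add_sum_erase _ _ (Finset.mem_erase.mpr ⟨hne, Finset.mem_univ _⟩)] at hadd
    rw [Matrix.sum_apply]
    simp only [Matrix.of_apply, Fin.sum_univ_three, Matrix.vecMulVec_apply]
    by_cases hij : i = j
    · subst hij
      simp only [if_true, Matrix.cons_val_zero, Matrix.cons_val_one, Matrix.cons_val_two,
        Matrix.tail_cons, Matrix.head_cons, zero_mul, add_zero, det_union_self]
      have h2 : ∏ l : Fin d, (wt (W l) (ρ i) + wt (W l) (ρ i)) =
          2 ^ d * ∏ l : Fin d, wt (W l) (ρ i) := by
        simp only [← two_mul, Finset.prod_mul_distrib]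
        simp
      rw [h2] at hadd
      simp only [Finset.prod_empty, one_mul, Finset.sdiff_empty, Finset.sdiff_self, mul_one] at hadd
      linear_combination hadd
    · obtain ⟨h1, h2⟩ := hρ i j hij
      simp only [if_neg hij, Matrix.cons_val_zero, Matrix.cons_val_one, Matrix.cons_val_two,
        Matrix.tail_cons, Matrix.head_cons, det_union_self, det_union_ne _ h1 h2]
      simp only [Finset.prod_empty, one_mul, Finset.sdiff_empty, Finset.sdiff_self, mul_one] at hadd
      linear_combination hadd

/-! ### A closed family of `k²` permutations of `2 k + 1` points -/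

/-- The three-cycle `none → inl i → inr j → none`. -/
def cyc {k : ℕ} (x : Fin k × Fin k) : Perm (Option (Fin k ⊕ Fin k)) :=
  swap none (some (Sum.inl x.1)) * swap (some (Sum.inl x.1)) (some (Sum.inr x.2))

section cyc

variable {k : ℕ} (x : Fin k × Fin k)

theorem cyc_none : cyc x none = some (Sum.inl x.1) := by
  simp [cyc, Perm.mul_apply, swap_apply_of_ne_of_ne]

theorem cyc_inl : cyc x (some (Sum.inl x.1)) = some (Sum.inr x.2) := by
  simp [cyc, Perm.mul_apply, swap_apply_of_ne_of_ne]

theorem cyc_inr : cyc x (some (Sum.inr x.2)) = none := by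
  simp [cyc, Perm.mul_apply]

theorem cyc_inl_ne {i : Fin k} (h : i ≠ x.1) : cyc x (some (Sum.inl i)) = some (Sum.inl i) := by
  simp [cyc, Perm.mul_apply, swap_apply_of_ne_of_ne, h]

theorem cyc_inr_ne {j : Fin k} (h : j ≠ x.2) : cyc x (some (Sum.inr j)) = some (Sum.inr j) := by
  simp [cyc, Perm.mul_apply, swap_apply_of_ne_of_ne, h]

end cyc

theorem cyc_key {k : ℕ} {x y : Fin k × Fin k} (π : Perm (Option (Fin k ⊕ Fin k)))
    (h : ∀ b, π b = cyc x b ∨ π b = cyc y b) (h0 : π none = some (Sum.inl x.1))
    (h1 : π (some (Sum.inl x.1)) = some (Sum.inr x.2)) : π = cyc x := by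
  have h2 : π (some (Sum.inr x.2)) = none := by
    rcases h (some (Sum.inr x.2)) with h' | h'
    · rw [h', cyc_inr]
    · by_cases hy : x.2 = y.2
      · rw [h', hy, cyc_inr]
      · rw [cyc_inr_ne y hy] at h'
        exact absurd (π.injective (h'.trans h1.symm)) (by simp)
  have h3 : ∀ j, j ≠ x.2 → π (some (Sum.inr j)) = some (Sum.inr j) := by
    intro j hj
    rcases h (some (Sum.inr j)) with h' | h'
    · rw [h', cyc_inr_ne x hj]
    · by_cases hy : j = y.2
      · rw [hy, cyc_inr] at h'
        rw [← hy] at h'
        exact absurd (π.injective (h'.trans h2.symm)) (by simpa using hj)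
      · rw [h', cyc_inr_ne y hy]
  ext1 b
  rcases b with _ | b | b
  · rw [h0, cyc_none]
  · by_cases hb : b = x.1
    · rw [hb, h1, cyc_inl]
    · rw [cyc_inl_ne x hb]
      rcases h (some (Sum.inl b)) with h' | h'
      · rw [h', cyc_inl_ne x hb]
      · by_cases hy : b = y.1
        · rw [hy, cyc_inl] at h'
          rw [← hy] at h'
          exfalso
          by_cases hj : y.2 = x.2
          · rw [hj] at h'
            exact hb (by simpa using π.injective (h'.trans h1.symm))
          · have := π.injective (h'.trans (h3 y.2 hj).symm)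
            simp at this
        · rw [h', cyc_inl_ne y hy]
  · by_cases hb : b = x.2
    · rw [hb, h2, cyc_inr]
    · rw [h3 b hb, cyc_inr_ne x hb]

theorem cyc_closed {k : ℕ} {x y : Fin k × Fin k} (hxy : x ≠ y) :
    cyc x ≠ cyc y ∧ ∀ π : Perm (Option (Fin k ⊕ Fin k)),
      (∀ b, π b = cyc x b ∨ π b = cyc y b) → π = cyc x ∨ π = cyc y := by
  constructor
  · intro h
    apply hxy
    have h0 := congrArg (fun σ : Perm (Option (Fin k ⊕ Fin k)) => σ none) h
    simp only [cyc_none, Option.some.injEq, Sum.inl.injEq] at h0
    have h1 := congrArg (fun σ : Perm (Option (Fin k ⊕ Fin k)) => σ (some (Sum.inl x.1))) h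
    simp only [cyc_inl] at h1
    rw [h0, cyc_inl] at h1
    simp only [Option.some.injEq, Sum.inr.injEq] at h1
    exact Prod.ext h0 h1
  · -- a lemma: if `π none = x.1` and `x.1 ≠ y.1` then `π = cyc x`
    have key : ∀ x y : Fin k × Fin k, ∀ π : Perm (Option (Fin k ⊕ Fin k)), x.1 ≠ y.1 →
        (∀ b, π b = cyc x b ∨ π b = cyc y b) → π none = some (Sum.inl x.1) → π = cyc x := by
      intro x y π hne h h0
      refine cyc_key π h h0 ?_
      rcases h (some (Sum.inl x.1)) with h' | h'
      · rw [h', cyc_inl]
      · rw [cyc_inl_ne y hne] at h'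
        exact absurd (π.injective (h'.trans h0.symm)) (by simp)
    intro π h
    by_cases hne : x.1 = y.1
    · have h0 : π none = some (Sum.inl x.1) := by
        rcases h none with h' | h'
        · rw [h', cyc_none]
        · rw [h', cyc_none, hne]
      rcases h (some (Sum.inl x.1)) with h' | h'
      · exact Or.inl (cyc_key π h h0 (by rw [h', cyc_inl]))
      · refine Or.inr (cyc_key π (fun b => (h b).symm) (by rw [h0, hne]) ?_)
        rw [hne, cyc_inl] at h'
        exact h'
    · rcases h none with h' | h'
      · rw [cyc_none] at h'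
        exact Or.inl (key x y π hne h h')
      · rw [cyc_none] at h'
        exact Or.inr (key y x π (Ne.symm hne) (fun b => (h b).symm) h')

theorem exists_closed (k : ℕ) : ∃ ρ : Fin (k * k) → Perm (Fin (2 * k + 1)), Closed ρ := by
  have hcard : Fintype.card (Option (Fin k ⊕ Fin k)) = 2 * k + 1 := by
    simp; ring
  let e : Option (Fin k ⊕ Fin k) ≃ Fin (2 * k + 1) := Fintype.equivFinOfCardEq hcard
  refine ⟨fun z => e.permCongr (cyc (finProdFinEquiv.symm z)), ?_⟩
  intro x y hxy
  have hxy' : finProdFinEquiv.symm x ≠ (finProdFinEquiv.symm y : Fin k × Fin k) :=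
    fun h => hxy (finProdFinEquiv.symm.injective h)
  obtain ⟨h1, h2⟩ := cyc_closed hxy'
  refine ⟨fun h => h1 (e.permCongr.injective h), fun π hπ => ?_⟩
  have h3 := h2 (e.permCongr.symm π) (fun b => by
    have := hπ (e b)
    simp only [Equiv.permCongr_apply, Equiv.symm_apply_apply] at this
    simp only [Equiv.permCongr_symm_apply]
    rcases this with h' | h'
    · left; rw [h', Equiv.symm_apply_apply]
    · right; rw [h', Equiv.symm_apply_apply])
  rcases h3 with h3 | h3
  · left
    change π = e.permCongr (cyc (finProdFinEquiv.symm x))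
    rw [← h3, Equiv.apply_symm_apply]
  · right
    change π = e.permCongr (cyc (finProdFinEquiv.symm y))
    rw [← h3, Equiv.apply_symm_apply]

theorem exists_closed' {k N size : ℕ} (hN : k * k = N) (hs : 2 * k + 1 = size) :
    ∃ ρ : Fin N → Perm (Fin size), Closed ρ := by
  subst hN hs
  exact exists_closed k

/-! ### The odd gadget -/

theorem rank_le_two {M : Matrix (Fin 3) (Fin 3) K} (h : M.det = 0) : M.rank ≤ 2 := by
  by_contra hcon
  have h3 : M.rank = 3 := by
    have := M.rank_le_width
    omega
  have htop : LinearMap.range M.mulVecLin = ⊤ := by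
    apply Submodule.eq_top_of_finrank_eq
    rw [Module.finrank_fin_fun]
    exact h3
  have hsurj : Function.Surjective M.mulVec := LinearMap.range_eq_top.mp htop
  rw [Matrix.mulVec_surjective_iff_isUnit, Matrix.isUnit_iff_isUnit_det, h] at hsurj
  exact not_isUnit_zero hsurj

/-- The permutation matrix of the rotation by `i` of `Fin 3`. -/
def rot (i : Fin 3) : Matrix (Fin 3) (Fin 3) K := Matrix.of fun a b => if a = b + i then 1 else 0

/-- The permutation matrix of the reflection `b ↦ i - b` of `Fin 3`. -/
def refl (i : Fin 3) : Matrix (Fin 3) (Fin 3) K := Matrix.of fun a b => if a = i - b then 1 else 0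

theorem per_rot (i : Fin 3) : (rot i : Matrix (Fin 3) (Fin 3) K).permanent = 1 := by
  rw [Matrix.permanent, Finset.sum_eq_single (Equiv.addRight i)]
  · exact Finset.prod_eq_one fun b _ => by simp [rot]
  · intro π _ hπ
    have : ∃ b, π b ≠ b + i := by
      by_contra hcon
      push Not at hcon
      exact hπ (Equiv.ext hcon)
    obtain ⟨b, hb⟩ := this
    rw [Finset.prod_eq_zero (Finset.mem_univ b)]
    simp [rot, hb]
  · intro h; exact absurd (Finset.mem_univ _) h

theorem per_refl (i : Fin 3) : (refl i : Matrix (Fin 3) (Fin 3) K).permanent = 1 := by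
  rw [Matrix.permanent, Finset.sum_eq_single (Equiv.subLeft i)]
  · exact Finset.prod_eq_one fun b _ => by simp [refl]
  · intro π _ hπ
    have : ∃ b, π b ≠ i - b := by
      by_contra hcon
      push Not at hcon
      exact hπ (Equiv.ext hcon)
    obtain ⟨b, hb⟩ := this
    rw [Finset.prod_eq_zero (Finset.mem_univ b)]
    simp [refl, hb]
  · intro h; exact absurd (Finset.mem_univ _) h

theorem det_rot_refl (W : Matrix (Fin 3) (Fin 3) K) :
    (W ⊙ rot 0).det * (W ⊙ rot 1).det * (W ⊙ rot 2).det =
      -((W ⊙ refl 0).det * (W ⊙ refl 1).det * (W ⊙ refl 2).det) := by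
  simp only [Matrix.det_fin_three, Matrix.hadamard_apply, rot, refl, Matrix.of_apply]
  simp (decide := true) only [if_true, if_false, mul_one, mul_zero, sub_zero, zero_sub, add_zero,
    zero_add, zero_mul, sub_self]
  ring

theorem is01_rot (i : Fin 3) : Is01 (rot i : Matrix (Fin 3) (Fin 3) K) := by
  intro a b
  simp only [rot, Matrix.of_apply]
  split_ifs
  · exact Or.inr rfl
  · exact Or.inl rfl

theorem is01_refl (i : Fin 3) : Is01 (refl i : Matrix (Fin 3) (Fin 3) K) := by
  intro a b
  simp only [refl, Matrix.of_apply]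
  split_ifs
  · exact Or.inr rfl
  · exact Or.inl rfl

/-- The gadget against products of an odd number of weighted determinants. -/
noncomputable def oddGadget (h2 : (2 : K) ≠ 0) : Gadget K (fun e => Odd e) 2 3 3 3 where
  cfg i j _ := if j = i then rot i else refl i
  coef i j := ![if j = i ∨ j = i + 1 then 1 else 0, 0, 0]
  is01 i j c := by
    by_cases h : j = i
    · rw [if_pos h]; exact is01_rot i
    · rw [if_neg h]; exact is01_refl i
  unit := by
    rw [Matrix.isUnit_iff_isUnit_det, Matrix.det_fin_three]
    simp (decide := true) only [Matrix.of_apply, Fin.sum_univ_three, if_true, if_false, per_rot,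
      per_refl, Matrix.cons_val_zero, Matrix.cons_val_one, Matrix.cons_val_two, Matrix.tail_cons,
      Matrix.head_cons]
    norm_num
    exact h2
  rank_le := by
    intro e he W
    refine Nat.mul_le_mul_left 3 (rank_le_two ?_)
    rw [Matrix.det_fin_three]
    simp (decide := true) only [Matrix.of_apply, Fin.sum_univ_three, if_true, if_false,
      Matrix.cons_val_zero, Matrix.cons_val_one, Matrix.cons_val_two, Matrix.tail_cons,
      Matrix.head_cons, one_mul, zero_mul, mul_zero, add_zero, sub_zero]
    have h : (∏ l, (W l ⊙ rot 0).det) * (∏ l, (W l ⊙ rot 1).det) * (∏ l, (W l ⊙ rot 2).det) =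
        -((∏ l, (W l ⊙ refl 0).det) * (∏ l, (W l ⊙ refl 1).det) * (∏ l, (W l ⊙ refl 2).det)) := by
      simp only [← Finset.prod_mul_distrib, det_rot_refl]
      rw [Finset.prod_neg]
      simp [he.neg_one_pow]
    linear_combination h

end Pool.Agent.Helper9P
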