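import Pool.Agent.Helper9P.Rank
import Pool.Agent.Helper9P.Gadgets

set_option autoImplicit false

/-!
# Products of weighted determinants and the permanent
-/

namespace Pool.Agent.Helper9P

open Matrix Finset Equiv

variable {K : Type*} [Field K]

open Classical in
/-- The tensor argument: gadgets for all degrees in use give a lower bound on the number of
products. -/
theorem core {P : Type*} [Fintype P] [DecidableEq P] (q : P → ℕ → Prop) (a b sz N : P → ℕ)
    (g : ∀ p, Gadget K (q p) (a p) (b p) (sz p) (N p)) {n s : ℕ} (hn : ∑ p, sz p ≤ n)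
    (c : Fin s → K) (d : Fin s → ℕ) (W : ∀ k, Fin (d k) → Matrix (Fin n) (Fin n) K)
    (h : ∀ A : Matrix (Fin n) (Fin n) K, Is01 A →
      A.permanent = ∑ k, c k * ∏ l, (W k l ⊙ A).det) :
    ∃ r : Fin s → P → ℕ, (∀ k p, r k p ≤ N p) ∧ (∀ k p, q p (d k) → b p * r k p ≤ a p * N p) ∧
      ∏ p, N p ≤ ∑ k with c k ≠ 0, ∏ p, r k p := by
  obtain ⟨E, hE1, hE2, hE3⟩ := embed (K := K) sz n hn
  choose w V hV using fun k l => hE3 (W k l)
  -- the matrices of the gadgets
  let T : ∀ p, Matrix (Fin (N p)) (Fin (N p)) K := fun p =>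
    Matrix.of fun i j => ∑ e, (g p).coef i j e * ((g p).cfg i j e).permanent
  let M : Fin s → ∀ p, Matrix (Fin (N p)) (Fin (N p)) K := fun k p =>
    Matrix.of fun i j => ∑ e, (g p).coef i j e * ∏ l, (V k l p ⊙ (g p).cfg i j e).det
  have key : piMat T = ∑ k with c k ≠ 0, (c k * ∏ l, w k l) • piMat (M k) := by
    have key' : piMat T = ∑ k, (c k * ∏ l, w k l) • piMat (M k) := by
      ext i j
      rw [Matrix.sum_apply]
      simp only [piMat, T, M, Matrix.of_apply, Matrix.smul_apply, smul_eq_mul]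
      simp only [Finset.prod_univ_sum, Fintype.piFinset_univ, Finset.prod_mul_distrib]
      simp only [Finset.mul_sum]
      rw [Finset.sum_comm]
      refine Finset.sum_congr rfl fun e _ => ?_
      rw [← hE2, h _ (hE1 _ fun p => (g p).is01 _ _ _), Finset.mul_sum]
      refine Finset.sum_congr rfl fun k _ => ?_
      have : ∏ l, (W k l ⊙ E fun p => (g p).cfg (i p) (j p) (e p)).det =
          (∏ l, w k l) * ∏ p, ∏ l, (V k l p ⊙ (g p).cfg (i p) (j p) (e p)).det := by
        rw [Finset.prod_comm, ← Finset.prod_mul_distrib]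
        exact Finset.prod_congr rfl fun l _ => hV k l _
      rw [this]
      ring
    rw [key', Finset.sum_filter]
    refine Finset.sum_congr rfl fun k _ => ?_
    by_cases hc : c k = 0
    · simp [hc]
    · simp [hc]
  have hb := rank_bound N T (fun p => (g p).unit) (Finset.univ.filter fun k => c k ≠ 0)
    (fun k => c k * ∏ l, w k l) M key
  refine ⟨fun k p => (M k p).rank, fun k p => (M k p).rank_le_width, fun k p hq => ?_, hb⟩
  exact (g p).rank_le (d k) hq fun l => V k l p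

/-- The sizes of the gadgets. -/
def gsz {h : ℕ} : Fin 2 ⊕ Fin h → ℕ := Sum.elim (fun _ => 3) fun i => 6 * 2 ^ (i : ℕ) + 1

/-- The sizes of the matrices of the gadgets. -/
def gN {h : ℕ} : Fin 2 ⊕ Fin h → ℕ := Sum.elim (fun _ => 3) fun i => 9 * 4 ^ (i : ℕ)

/-- The degrees that the gadgets are good for. -/
def gq {h : ℕ} : Fin 2 ⊕ Fin h → ℕ → Prop :=
  Sum.elim (fun _ e => Odd e) fun i e => e = 2 * (i : ℕ) + 2

/-- The numerators of the factors of the gadgets. -/
def ga {h : ℕ} : Fin 2 ⊕ Fin h → ℕ := Sum.elim (fun _ => 2) fun _ => 4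

/-- The denominators of the factors of the gadgets. -/
def gb {h : ℕ} : Fin 2 ⊕ Fin h → ℕ := Sum.elim (fun _ => 3) fun _ => 9

theorem exists_gadget (h2 : (2 : K) ≠ 0) {h : ℕ} (hK : ∀ i < h, (2 : K) ^ (2 * i + 2) ≠ 2)
    (x : Fin 2 ⊕ Fin h) : Nonempty (Gadget K (gq x) (ga x) (gb x) (gsz x) (gN x)) := by
  rcases x with x | i
  · exact ⟨oddGadget h2⟩
  · have e1 : 3 * 2 ^ (i : ℕ) * (3 * 2 ^ (i : ℕ)) = 9 * 4 ^ (i : ℕ) := by
      rw [show (4 : ℕ) = 2 * 2 from rfl, mul_pow]; ring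
    have e2 : 2 * (3 * 2 ^ (i : ℕ)) + 1 = 6 * 2 ^ (i : ℕ) + 1 := by ring
    have hN : 9 * (2 ^ (2 * (i : ℕ) + 2) - 2) ≤ 4 * (9 * 4 ^ (i : ℕ)) := by
      have : 2 ^ (2 * (i : ℕ) + 2) = 4 * 4 ^ (i : ℕ) := by
        rw [pow_add, pow_mul]; norm_num; ring
      rw [this]
      omega
    obtain ⟨ρ, hρ⟩ := exists_closed' e1 e2
    exact ⟨closedGadget (2 * (i : ℕ) + 2) (by omega) (hK i i.2) ρ hρ hN⟩

theorem sum_gsz (h : ℕ) : ∑ x : Fin 2 ⊕ Fin h, gsz x = 6 * 2 ^ h + h := by
  rw [Fintype.sum_sum_type]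
  simp only [gsz, Sum.elim_inl, Sum.elim_inr, Finset.sum_const, Finset.card_univ,
    Fintype.card_fin, smul_eq_mul]
  induction h with
  | zero => simp
  | succ h ih =>
    rw [Fin.sum_univ_castSucc]
    simp only [Fin.val_castSucc, Fin.val_last]
    rw [pow_succ]
    omega

/-- The bound for one superblock. -/
theorem superblock {h : ℕ} (r : Fin 2 ⊕ Fin h → ℕ) (hr : ∀ x, r x ≤ gN x) (e : ℕ) (he : 1 ≤ e)
    (hodd : Odd e ∨ e ≤ 2 * h) (hq : ∀ x, gq x e → gb x * r x ≤ ga x * gN x) :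
    9 * ∏ x, r x ≤ 4 * ∏ x : Fin 2 ⊕ Fin h, gN x := by
  rcases Nat.even_or_odd e with hev | hodd'
  · obtain ⟨f, hf⟩ := hev
    have hlt : f - 1 < h := by
      rcases hodd with h' | h'
      · rw [Nat.odd_iff] at h'; omega
      · omega
    let x : Fin 2 ⊕ Fin h := Sum.inr ⟨f - 1, hlt⟩
    have hx := hq x (by change e = 2 * (f - 1) + 2; omega)
    have hx' : 9 * r x ≤ 4 * gN x := hx
    rw [← Finset.mul_prod_erase _ _ (Finset.mem_univ x),
      ← Finset.mul_prod_erase _ _ (Finset.mem_univ x), ← mul_assoc, ← mul_assoc]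
    exact Nat.mul_le_mul hx' (Finset.prod_le_prod' fun y _ => hr y)
  · rw [Fintype.prod_sum_type, Fintype.prod_sum_type]
    have h0 : 3 * r (Sum.inl 0) ≤ 2 * 3 := hq (Sum.inl 0) hodd'
    have h1 : 3 * r (Sum.inl 1) ≤ 2 * 3 := hq (Sum.inl 1) hodd'
    have h01 : 9 * ∏ x : Fin 2, r (Sum.inl x) ≤ 4 * ∏ x : Fin 2, gN (h := h) (Sum.inl x) := by
      rw [Fin.prod_univ_two, Fin.prod_univ_two]
      change 9 * (r (Sum.inl 0) * r (Sum.inl 1)) ≤ 4 * (3 * 3)
      have h0' : r (Sum.inl 0) ≤ 2 := by omega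
      have h1' : r (Sum.inl 1) ≤ 2 := by omega
      have := Nat.mul_le_mul h0' h1'
      omega
    rw [← mul_assoc, ← mul_assoc]
    exact Nat.mul_le_mul h01 (Finset.prod_le_prod' fun y _ => hr _)

theorem main (h2 : (2 : K) ≠ 0) {h n s : ℕ} (hK : ∀ i < h, (2 : K) ^ (2 * i + 2) ≠ 2)
    (c : Fin s → K) (d : Fin s → ℕ) (hd : ∀ k, Odd (d k) ∨ d k ≤ 2 * h)
    (W : ∀ k, Fin (d k) → Matrix (Fin n) (Fin n) K)
    (hper : ∀ A : Matrix (Fin n) (Fin n) K, (∀ a b, A a b = 0 ∨ A a b = 1) →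
      A.permanent = ∑ k, c k * ∏ l, (W k l ⊙ A).det) :
    9 ^ (n / (6 * 2 ^ h + h)) ≤ s * 4 ^ (n / (6 * 2 ^ h + h)) := by
  classical
  set m := n / (6 * 2 ^ h + h) with hm
  have hs : 1 ≤ s := by
    rcases Nat.eq_zero_or_pos s with hs | hs
    · subst hs
      exfalso
      have := hper 1 (fun a b => by
        by_cases hab : a = b
        · right; subst hab; exact Matrix.one_apply_eq a
        · left; exact Matrix.one_apply_ne hab)
      simp at this
    · exact hs
  rcases Nat.eq_zero_or_pos m with hm0 | hmpos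
  · rw [hm0]; simpa using hs
  have hbpos : 0 < 6 * 2 ^ h + h := by positivity
  have hmn : m * (6 * 2 ^ h + h) ≤ n := Nat.div_mul_le_self _ _
  have hn : 0 < n := by
    have := Nat.mul_pos hmpos hbpos
    omega
  have : Nonempty (Fin n) := ⟨⟨0, hn⟩⟩
  -- remove the constants
  let c' : Fin s → K := fun k => if d k = 0 then 0 else c k
  have hc' : ∀ A : Matrix (Fin n) (Fin n) K, Is01 A →
      A.permanent = ∑ k, c' k * ∏ l, (W k l ⊙ A).det := by
    have h0 : ∑ k, (if d k = 0 then c k else 0) = 0 := by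
      have h00 := hper 0 (fun a b => Or.inl rfl)
      rw [Matrix.permanent_zero] at h00
      refine Eq.trans ?_ h00.symm
      refine Finset.sum_congr rfl fun k _ => ?_
      by_cases hk : d k = 0
      · rw [if_pos hk]
        have : ∏ l, (W k l ⊙ (0 : Matrix (Fin n) (Fin n) K)).det = 1 := by
          have : IsEmpty (Fin (d k)) := by rw [hk]; infer_instance
          exact Finset.prod_of_isEmpty _
        rw [this, mul_one]
      · rw [if_neg hk]
        have : ∏ l, (W k l ⊙ (0 : Matrix (Fin n) (Fin n) K)).det = 0 := by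
          refine Finset.prod_eq_zero (Finset.mem_univ (⟨0, Nat.pos_of_ne_zero hk⟩ : Fin (d k))) ?_
          rw [Matrix.hadamard_zero, Matrix.det_zero]
        rw [this, mul_zero]
    intro A hA
    rw [hper A hA, ← sub_eq_zero, ← Finset.sum_sub_distrib, ← h0]
    refine Finset.sum_congr rfl fun k _ => ?_
    by_cases hk : d k = 0
    · have : ∏ l, (W k l ⊙ A).det = 1 := by
        have : IsEmpty (Fin (d k)) := by rw [hk]; infer_instance
        exact Finset.prod_of_isEmpty _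
      simp [c', hk, this]
    · simp [c', hk]
  let g := fun x => Classical.choice (exists_gadget (K := K) h2 hK x)
  obtain ⟨r, hr1, hr2, hr3⟩ := core (P := Fin m × (Fin 2 ⊕ Fin h)) (fun p => gq p.2)
    (fun p => ga p.2) (fun p => gb p.2) (fun p => gsz p.2) (fun p => gN p.2) (fun p => g p.2)
    (n := n) (by
      rw [Fintype.sum_prod_type]
      simp only [sum_gsz, Finset.sum_const, Finset.card_univ, Fintype.card_fin, smul_eq_mul]
      exact hmn) c' d W hc'
  have hterm : ∀ k, c' k ≠ 0 → 9 ^ m * ∏ p, r k p ≤ 4 ^ m * ∏ p : Fin m × (Fin 2 ⊕ Fin h),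
      gN p.2 := by
    intro k hk
    have hdk : 1 ≤ d k := by
      by_contra hcon
      exact hk (by simp [c', show d k = 0 by omega])
    rw [Fintype.prod_prod_type, Fintype.prod_prod_type]
    have e9 : (9 : ℕ) ^ m = ∏ _j : Fin m, 9 := by simp
    have e4 : (4 : ℕ) ^ m = ∏ _j : Fin m, 4 := by simp
    rw [e9, e4, ← Finset.prod_mul_distrib, ← Finset.prod_mul_distrib]
    refine Finset.prod_le_prod' fun j _ => ?_
    exact superblock (fun x => r k (j, x)) (fun x => hr1 k (j, x)) (d k) hdk (hd k)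
      (fun x hx => hr2 k (j, x) hx)
  have hNpos : 0 < ∏ p : Fin m × (Fin 2 ⊕ Fin h), gN p.2 := by
    refine Finset.prod_pos fun p _ => ?_
    rcases p with ⟨j, x | i⟩
    · change 0 < 3; norm_num
    · change 0 < 9 * 4 ^ (i : ℕ); positivity
  have hfin : 9 ^ m * ∏ p : Fin m × (Fin 2 ⊕ Fin h), gN p.2 ≤
      s * 4 ^ m * ∏ p : Fin m × (Fin 2 ⊕ Fin h), gN p.2 := by
    calc 9 ^ m * ∏ p : Fin m × (Fin 2 ⊕ Fin h), gN p.2
        ≤ 9 ^ m * ∑ k with c' k ≠ 0, ∏ p, r k p := Nat.mul_le_mul_left _ hr3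
      _ = ∑ k with c' k ≠ 0, 9 ^ m * ∏ p, r k p := Finset.mul_sum _ _ _
      _ ≤ ∑ k with c' k ≠ 0, 4 ^ m * ∏ p : Fin m × (Fin 2 ⊕ Fin h), gN p.2 :=
          Finset.sum_le_sum fun k hk => hterm k (Finset.mem_filter.mp hk).2
      _ = (Finset.univ.filter fun k => c' k ≠ 0).card *
          (4 ^ m * ∏ p : Fin m × (Fin 2 ⊕ Fin h), gN p.2) := by
          rw [Finset.sum_const, smul_eq_mul]
      _ ≤ s * (4 ^ m * ∏ p : Fin m × (Fin 2 ⊕ Fin h), gN p.2) := by
          refine Nat.mul_le_mul_right _ ((Finset.card_le_univ _).trans ?_)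
          simp
      _ = s * 4 ^ m * ∏ p : Fin m × (Fin 2 ⊕ Fin h), gN p.2 := by ring
  exact Nat.le_of_mul_le_mul_right hfin hNpos

end Pool.Agent.Helper9P
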