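import Mathlib

set_option autoImplicit false

/-!
# Tensor products of matrices indexed by a finite family
-/

namespace Pool.Agent.Helper9P

open Matrix Finset

variable {K : Type*} [Field K]

/-- The tensor product of a finite family of matrices. -/
def piMat {P : Type*} [Fintype P] {I J : P → Type*} (M : ∀ p, Matrix (I p) (J p) K) :
    Matrix (∀ p, I p) (∀ p, J p) K :=
  Matrix.of fun i j => ∏ p, M p (i p) (j p)

theorem piMat_mul {P : Type*} [Fintype P] [DecidableEq P] {I J L : P → Type*}
    [∀ p, Fintype (J p)] (U : ∀ p, Matrix (I p) (J p) K)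
    (V : ∀ p, Matrix (J p) (L p) K) :
    piMat U * piMat V = piMat fun p => U p * V p := by
  ext i k
  simp only [piMat, Matrix.mul_apply, Matrix.of_apply]
  rw [Finset.prod_univ_sum]
  simp only [Fintype.piFinset_univ, Finset.prod_mul_distrib]

theorem piMat_one {P : Type*} [Fintype P] [DecidableEq P] {I : P → Type*}
    [∀ p, DecidableEq (I p)] :
    piMat (fun p => (1 : Matrix (I p) (I p) K)) = 1 := by
  ext i j
  simp only [piMat, Matrix.of_apply]
  by_cases h : i = j
  · subst h; simp
  · rw [Matrix.one_apply_ne h]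
    obtain ⟨p, hp⟩ := Function.ne_iff.mp h
    exact Finset.prod_eq_zero (Finset.mem_univ p) (Matrix.one_apply_ne hp)

theorem exists_factor {I J : Type*} [Fintype I] [Fintype J] [DecidableEq J]
    (M : Matrix I J K) :
    ∃ (U : Matrix I (Fin M.rank) K) (V : Matrix (Fin M.rank) J K), M = U * V := by
  let b : Module.Basis (Fin M.rank) K (LinearMap.range M.mulVecLin) :=
    Module.finBasisOfFinrankEq K _ rfl
  refine ⟨Matrix.of fun i a => (b a : I → K) i,
    Matrix.of fun a j => b.repr ⟨M.mulVecLin (Pi.single j 1), LinearMap.mem_range_self _ _⟩ a, ?_⟩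
  ext i j
  have h := congrArg (fun v : LinearMap.range M.mulVecLin => (v : I → K) i)
    (b.sum_repr ⟨M.mulVecLin (Pi.single j 1), LinearMap.mem_range_self _ _⟩)
  simp only [Submodule.coe_sum, Submodule.coe_smul, Finset.sum_apply, Pi.smul_apply,
    smul_eq_mul, Matrix.mulVecLin_apply, Matrix.mulVec_single_one] at h
  rw [Matrix.mul_apply]
  simp only [Matrix.of_apply]
  have h2 : M.col j i = M i j := rfl
  rw [← h2, ← h]
  refine Finset.sum_congr rfl fun a _ => ?_
  rw [mul_comm]
  simp

theorem rank_piMat_le {P : Type*} [Fintype P] [DecidableEq P] {I J : P → Type*}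
    [∀ p, Fintype (I p)] [∀ p, Fintype (J p)] [∀ p, DecidableEq (J p)]
    (M : ∀ p, Matrix (I p) (J p) K) :
    (piMat M).rank ≤ ∏ p, (M p).rank := by
  choose U V h using fun p => exists_factor (M p)
  have h1 : piMat M = piMat U * piMat V := by
    rw [piMat_mul]
    congr 1
    funext p
    exact h p
  rw [h1]
  refine (Matrix.rank_mul_le_left _ _).trans ((Matrix.rank_le_card_width _).trans ?_)
  simp

theorem rank_add_le' {I J : Type*} [Fintype I] [Fintype J] (A B : Matrix I J K) :
    (A + B).rank ≤ A.rank + B.rank := by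
  classical
  have h : LinearMap.range (A + B).mulVecLin ≤
      LinearMap.range A.mulVecLin ⊔ LinearMap.range B.mulVecLin := by
    rw [Matrix.mulVecLin_add]
    rintro _ ⟨v, rfl⟩
    exact Submodule.add_mem_sup ⟨v, rfl⟩ ⟨v, rfl⟩
  exact (Submodule.finrank_mono h).trans (Submodule.finrank_add_le_finrank_add_finrank _ _)

theorem rank_sum_le {I J : Type*} [Fintype I] [Fintype J] {s : Type*} (S : Finset s)
    (M : s → Matrix I J K) : (∑ k ∈ S, M k).rank ≤ ∑ k ∈ S, (M k).rank := by
  classical
  induction S using Finset.induction_on with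
  | empty => simp
  | insert a S ha ih =>
    rw [Finset.sum_insert ha, Finset.sum_insert ha]
    exact (rank_add_le' _ _).trans (by omega)

theorem rank_smul_le {I J : Type*} [Fintype I] [Fintype J] (c : K) (M : Matrix I J K) :
    (c • M).rank ≤ M.rank := by
  classical
  have : c • M = (c • (1 : Matrix I I K)) * M := by simp
  rw [this]
  exact Matrix.rank_mul_le_right _ _

/-- The tensor product of invertible matrices of sizes `N p` cannot be a sum of few tensor
products of matrices of small rank. -/
theorem rank_bound {P : Type*} [Fintype P] [DecidableEq P] (N : P → ℕ)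
    (T : ∀ p, Matrix (Fin (N p)) (Fin (N p)) K) (hT : ∀ p, IsUnit (T p)) {s : Type*}
    (S : Finset s) (c : s → K) (M : s → ∀ p, Matrix (Fin (N p)) (Fin (N p)) K)
    (h : piMat T = ∑ k ∈ S, c k • piMat (M k)) :
    ∏ p, N p ≤ ∑ k ∈ S, ∏ p, (M k p).rank := by
  have h1 : (piMat T).rank = ∏ p, N p := by
    choose T' hT' using fun p => (hT p).exists_right_inv
    have h2 : piMat T * piMat T' = 1 := by
      rw [piMat_mul, ← piMat_one]
      congr 1
      funext p
      exact hT' p
    have h3 := Matrix.rank_mul_le_left (piMat T) (piMat T')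
    rw [h2, Matrix.rank_one] at h3
    have h4 := Matrix.rank_le_card_width (piMat T)
    have h5 : Fintype.card (∀ p, Fin (N p)) = ∏ p, N p := by simp
    omega
  rw [← h1, h]
  refine (rank_sum_le _ _).trans (Finset.sum_le_sum fun k _ => ?_)
  exact (rank_smul_le _ _).trans (rank_piMat_le _)

end Pool.Agent.Helper9P
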